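import Pool.Agent.W798.SP.Stm

/-!
# Project SPX: part DY
-/

set_option autoImplicit false

open Finset
open scoped Classical Pointwise

namespace Pool.Agent.W797.SP

open Pool.Agent.W798.SP

theorem fib_pos (A : Finset ℝ) (hA : ∀ x ∈ A, 0 < x) (l : ℝ) (hl : l ∈ A / A) :
    0 < l ∧ 1 ≤ (fib A l).card := by
  rw [Finset.mem_div] at hl
  obtain ⟨b, hb, a, ha, rfl⟩ := hl
  refine ⟨div_pos (hA b hb) (hA a ha), ?_⟩
  rw [Nat.one_le_iff_ne_zero, ← Nat.pos_iff_ne_zero, Finset.card_pos]
  refine ⟨a, ?_⟩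
  unfold fib
  rw [Finset.mem_filter]
  refine ⟨ha, ?_⟩
  rw [div_mul_cancel₀ _ (hA a ha).ne']
  exact hb

theorem tDY (h : S_CS) : S_DY := by
  intro A hne hA
  obtain ⟨h1, h2⟩ := h A hA
  have hn : A.card ≠ 0 := hne.card_pos.ne'
  set J := Nat.log 2 A.card + 1 with hJ
  have hfle : ∀ l, (fib A l).card ≤ A.card := fun l => Finset.card_filter_le _ _
  have hmaps : ∀ l ∈ A / A, Nat.log 2 (fib A l).card ∈ Finset.range J := by
    intro l _
    rw [Finset.mem_range, hJ]
    exact Nat.lt_succ_of_le (Nat.log_mono_right (hfle l))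
  have hsum : ∑ j ∈ Finset.range J, ∑ l ∈ (A / A).filter (fun l => Nat.log 2 (fib A l).card = j),
      (fib A l).card ^ 2 = en A :=
    Finset.sum_fiberwise_of_maps_to hmaps (fun l => (fib A l).card ^ 2)
  obtain ⟨j, hj, hle⟩ := Finset.exists_le_of_sum_le (s := Finset.range J)
    (f := fun _ => en A)
    (g := fun j => J * ∑ l ∈ (A / A).filter (fun l => Nat.log 2 (fib A l).card = j),
      (fib A l).card ^ 2) (Finset.nonempty_range_iff.2 (by omega)) (by
        rw [← Finset.mul_sum, hsum, Finset.sum_const, Finset.card_range, smul_eq_mul])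
  have hjJ : j ≤ Nat.log 2 A.card := by
    have := Finset.mem_range.1 hj
    omega
  have hS : ∀ l ∈ (A / A).filter (fun l => Nat.log 2 (fib A l).card = j),
      0 < l ∧ 2 ^ j ≤ (fib A l).card ∧ (fib A l).card < 2 * 2 ^ j := by
    intro l hl
    rw [Finset.mem_filter] at hl
    obtain ⟨hl1, hl2⟩ := hl
    obtain ⟨a1, a2⟩ := fib_pos A hA l hl1
    refine ⟨a1, ?_, ?_⟩
    · rw [← hl2]
      exact Nat.pow_log_le_self 2 (by omega)
    · have := Nat.lt_pow_succ_log_self (b := 2) (by norm_num) (fib A l).card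
      rw [hl2, pow_succ] at this
      omega
  refine ⟨2 ^ j, (A / A).filter (fun l => Nat.log 2 (fib A l).card = j), Nat.one_le_two_pow,
    ?_, hS, ?_, ?_⟩
  · exact le_trans (Nat.pow_le_pow_right (by norm_num) hjJ) (Nat.pow_log_le_self 2 hn)
  · have e1 : ∑ l ∈ (A / A).filter (fun l => Nat.log 2 (fib A l).card = j),
        (fib A l).card ^ 2 ≤
        ((A / A).filter (fun l => Nat.log 2 (fib A l).card = j)).card * (2 * 2 ^ j) ^ 2 := by
      rw [← smul_eq_mul]
      apply Finset.sum_le_card_nsmul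
      intro l hl
      exact Nat.pow_le_pow_left (hS l hl).2.2.le 2
    calc A.card ^ 4 ≤ (A * A).card * en A := h1
      _ ≤ (A * A).card * (J * (((A / A).filter
            (fun l => Nat.log 2 (fib A l).card = j)).card * (2 * 2 ^ j) ^ 2)) :=
          Nat.mul_le_mul_left _ (hle.trans (Nat.mul_le_mul_left _ e1))
      _ = _ := by ring
  · calc ((A / A).filter (fun l => Nat.log 2 (fib A l).card = j)).card * 2 ^ j
        ≤ ∑ l ∈ (A / A).filter (fun l => Nat.log 2 (fib A l).card = j), (fib A l).card := by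
          rw [← smul_eq_mul]
          apply Finset.card_nsmul_le_sum
          intro l hl
          exact (hS l hl).2.1
      _ ≤ ∑ l ∈ A / A, (fib A l).card :=
          Finset.sum_le_sum_of_subset (Finset.filter_subset _ _)
      _ = A.card ^ 2 := h2

end Pool.Agent.W797.SP
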